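import Pool.Agent.Helper30.ML.Goals
import Pool.Agent.Helper53.KC.LV

/-!
# Project ML (MP_bf413e_co), packet D4: one vertex of degree at most 4

The proof adapts the main induction of Helper53/KC/LV.lean.
-/

set_option autoImplicit false

namespace Pool.Agent.Helper96.ML

open scoped Classical
open Finset
open Pool.Agent.Helper94.KC Pool.Agent.Helper53.KC Pool.Agent.Helper30.ML

theorem pD4 : StmtD4 := by
  intro V _ G x hdeg hE f g hf hg
  have hdeg' : (univ.filter (fun y => G.Adj x y)).card ≤ 4 := hdeg
  have key : ∀ h, KEq (del G x) f h → ∃ F, KEq G f F ∧ ∀ y, y ≠ x → F y = h y := by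
    intro h hh
    induction hh with
    | refl => exact ⟨f, Relation.ReflTransGen.refl, fun _ _ => rfl⟩
    | tail _ hst ihh =>
      rename_i h1 h2 _
      obtain ⟨F, hF, hoff⟩ := ihh
      obtain ⟨a, b, z, hz, hch⟩ := hst
      have hFp : Proper G F := eq_proper hF hf
      set C : Finset V := univ.filter (fun y => y ≠ x ∧ InChain (del G x) h1 a b z y) with hC
      have hCm : ∀ y, y ∈ C ↔ (y ≠ x ∧ InChain (del G x) h1 a b z y) := by
        intro y
        simp [hC]
      obtain ⟨F', hF', hF'2⟩ := core_step G x a b hdeg' F hFp C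
        (fun h => ((hCm x).1 h).1 rfl)
        (fun y hy => by
          have h3 := (hCm y).1 hy
          rw [hoff y h3.1]
          exact chain_mem h3.2)
        (by
          intro u hu v hvx ha hv
          have h3 := (hCm u).1 hu
          rw [hoff v hvx] at hv
          exact (hCm v).2 ⟨hvx, chain_step h3.2 ⟨ha, h3.1, hvx⟩ hv⟩)
      refine ⟨F', hF.trans hF', fun y hy => ?_⟩
      rw [hF'2 y hy, hoff y hy]
      by_cases hyc : InChain (del G x) h1 a b z y
      · rw [(hch y).1 hyc, if_pos ((hCm y).2 ⟨hy, hyc⟩)]
      · rw [(hch y).2 hyc, if_neg (fun h => hyc ((hCm y).1 h).2)]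
  obtain ⟨F, hF, hoff⟩ := key g (hE f g (fun u v h => hf u v h.1) (fun u v h => hg u v h.1))
  have hFp : Proper G F := eq_proper hF hf
  have hlast := recolor G F x (g x) (fun y hy => ⟨(hFp x y hy).symm, by
    have hyx : y ≠ x := fun h => G.loopless.irrefl x (h ▸ hy)
    rw [hoff y hyx]
    exact (hg x y hy).symm⟩)
  have h5 : Function.update F x (g x) = g := by
    funext y
    by_cases hy : y = x
    · subst hy
      simp
    · rw [Function.update_of_ne hy, hoff y hy]
  rw [h5] at hlast
  exact hF.trans hlast

end Pool.Agent.Helper96.ML
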