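import Pool.Agent.Helper30.ML.Goals

/-!
# Project ML (MP_bf413e_co), packet LD: a connected graph of maximum degree 2 on five vertices
-/

set_option autoImplicit false

namespace Pool.Agent.Helper96.ML

open scoped Classical
open Finset
open Pool.Agent.Helper30.ML

theorem inj5 {V : Type} {a b c d e : V} (h1 : a ≠ b) (h2 : a ≠ c) (h3 : a ≠ d) (h4 : a ≠ e)
    (h5 : b ≠ c) (h6 : b ≠ d) (h7 : b ≠ e) (h8 : c ≠ d) (h9 : c ≠ e) (h10 : d ≠ e) :
    Function.Injective ![a, b, c, d, e] := by
  intro i j hij
  fin_cases i <;> fin_cases j <;>
    first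
      | rfl
      | exact absurd hij h1
      | exact absurd hij h2
      | exact absurd hij h3
      | exact absurd hij h4
      | exact absurd hij h5
      | exact absurd hij h6
      | exact absurd hij h7
      | exact absurd hij h8
      | exact absurd hij h9
      | exact absurd hij h10
      | exact absurd hij h1.symm
      | exact absurd hij h2.symm
      | exact absurd hij h3.symm
      | exact absurd hij h4.symm
      | exact absurd hij h5.symm
      | exact absurd hij h6.symm
      | exact absurd hij h7.symm
      | exact absurd hij h8.symm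
      | exact absurd hij h9.symm
      | exact absurd hij h10.symm

theorem pLD : StmtLD := by
  intro V N L A hN hs hA hirr hdeg hcon hLA hAA
  -- no three neighbours
  have three : ∀ x a b y, x ∈ N → a ∈ N → b ∈ N → y ∈ N → L x a → L x b → L x y → a ≠ b → a ≠ y →
      b ≠ y → False := by
    intro x a b y hx ha hb hy h1 h2 h3 h4 h5 h6
    have h := hdeg x hx
    have hsub : ({a, b, y} : Finset V) ⊆ N.filter (fun z => L x z) := by
      intro z hz
      simp only [mem_insert, mem_singleton] at hz
      rcases hz with rfl | rfl | rfl
      · exact mem_filter.2 ⟨ha, h1⟩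
      · exact mem_filter.2 ⟨hb, h2⟩
      · exact mem_filter.2 ⟨hy, h3⟩
    have h7 := card_le_card hsub
    rw [card_eq_three.2 ⟨a, b, y, h4, h5, h6, rfl⟩] at h7
    omega
  have path : ∀ k : ℕ, k + 1 ≤ 5 → ∃ l : List V, l.length = k + 1 ∧ l.Nodup ∧ (∀ x ∈ l, x ∈ N) ∧
      l.IsChain L := by
    intro k
    induction k with
    | zero =>
      intro _
      obtain ⟨x, hx⟩ : N.Nonempty := card_pos.1 (by omega)
      exact ⟨[x], rfl, by simp, by simpa using hx, by simp⟩
    | succ k ih =>
      intro hk
      obtain ⟨l, hl, hnd, hm, hch⟩ := ih (by omega)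
      have hcard : l.toFinset.card = k + 1 := by rw [List.toFinset_card_of_nodup hnd, hl]
      obtain ⟨x, hx, y, hy, hxy⟩ := hcon l.toFinset (fun z hz => hm z (List.mem_toFinset.1 hz))
        (card_pos.1 (by omega)) (fun h => by rw [h] at hcard; omega)
      rw [List.mem_toFinset] at hx
      rw [mem_sdiff, List.mem_toFinset] at hy
      obtain ⟨hyN, hyl⟩ := hy
      obtain ⟨s, t, rfl⟩ := List.append_of_mem hx
      rcases List.eq_nil_or_concat s with rfl | ⟨s', a, rfl⟩
      · refine ⟨y :: x :: t, ?_, ?_, ?_, ?_⟩
        · simpa using hl
        · simp only [List.nil_append] at hnd hyl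
          exact List.nodup_cons.2 ⟨hyl, hnd⟩
        · intro z hz
          rcases List.mem_cons.1 hz with rfl | hz
          · exact hyN
          · exact hm z (by simpa using hz)
        · simp only [List.nil_append] at hch
          exact List.isChain_cons_cons.2 ⟨hs _ _ hxy, hch⟩
      · rcases t with _ | ⟨b, t'⟩
        · refine ⟨(s'.concat a ++ [x]) ++ [y], ?_, ?_, ?_, ?_⟩
          · rw [List.length_append, hl]
            rfl
          · refine List.Nodup.append hnd (by simp) ?_
            intro z hz hz'
            rw [List.mem_singleton] at hz'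
            subst hz'
            exact hyl hz
          · intro z hz
            rcases List.mem_append.1 hz with hz | hz
            · exact hm z hz
            · rw [List.mem_singleton] at hz
              subst hz
              exact hyN
          · rw [List.isChain_append]
            refine ⟨hch, by simp, ?_⟩
            intro u hu v hv
            simp at hu hv
            subst hu hv
            exact hxy
        · exfalso
          rw [List.isChain_append] at hch
          obtain ⟨_, hc2, hc3⟩ := hch
          have hax : L a x := hc3 a (by simp) x (by simp)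
          have hxb : L x b := (List.isChain_cons_cons.1 hc2).1
          have hal : a ∈ s'.concat a ++ x :: b :: t' := by simp
          have hbl : b ∈ s'.concat a ++ x :: b :: t' := by simp
          have hab : a ≠ b := by
            intro h
            subst h
            have h1 := (List.nodup_append.1 hnd).2.2 a (by simp) a (by simp)
            exact h1 rfl
          exact three x a b y (hm x hx) (hm a hal) (hm b hbl) hyN (hs _ _ hax) hxb hxy hab
            (fun h => hyl (h ▸ hal)) (fun h => hyl (h ▸ hbl))
  obtain ⟨l, hl, hnd, hm, hch⟩ := path 4 le_rfl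
  have hNl : l.toFinset = N := by
    refine eq_of_subset_of_card_le (fun z hz => hm z (List.mem_toFinset.1 hz)) ?_
    rw [List.toFinset_card_of_nodup hnd, hl, hN]
  obtain ⟨a, l, rfl⟩ := List.exists_cons_of_length_eq_add_one hl
  obtain ⟨b, l, rfl⟩ := List.exists_cons_of_length_eq_add_one (by simpa using hl : l.length = 3 + 1)
  obtain ⟨c, l, rfl⟩ := List.exists_cons_of_length_eq_add_one (by simpa using hl : l.length = 2 + 1)
  obtain ⟨d, l, rfl⟩ := List.exists_cons_of_length_eq_add_one (by simpa using hl : l.length = 1 + 1)
  obtain ⟨e, l, rfl⟩ := List.exists_cons_of_length_eq_add_one (by simpa using hl : l.length = 0 + 1)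
  have hl0 : l = [] := List.length_eq_zero_iff.1 (by simpa using hl)
  subst hl0
  have hNm : ∀ z ∈ N, z = a ∨ z = b ∨ z = c ∨ z = d ∨ z = e := by
    intro z hz
    rw [← hNl] at hz
    simpa using hz
  have ha : a ∈ N := hm a (by simp)
  have hb : b ∈ N := hm b (by simp)
  have hc : c ∈ N := hm c (by simp)
  have hd : d ∈ N := hm d (by simp)
  have he : e ∈ N := hm e (by simp)
  simp only [List.isChain_cons_cons] at hch
  obtain ⟨h1, h2, h3, h4, _⟩ := hch
  simp only [List.nodup_cons, List.mem_cons, not_or, List.not_mem_nil, not_false_iff,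
    List.nodup_nil, and_true] at hnd
  obtain ⟨⟨nab, nac, nad, nae⟩, ⟨nbc, nbd, nbe⟩, ⟨ncd, nce⟩, nde⟩ := hnd
  have hlast : A e a := by
    by_cases hda : (N.filter (fun z => L a z)).card ≤ 1
    · by_cases hde : (N.filter (fun z => L e z)).card ≤ 1
      · exact hAA e he a ha (Ne.symm nae) hde hda
      · push Not at hde
        obtain ⟨z, hz, hzd⟩ := exists_mem_ne hde d
        rw [mem_filter] at hz
        rcases hNm z hz.1 with rfl | rfl | rfl | rfl | rfl
        · exact hLA e he _ ha hz.2
        · exact (three z a c e hb ha hc he (hs _ _ h1) h2 (hs _ _ hz.2) nac nae nce).elim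
        · exact (three z b d e hc hb hd he (hs _ _ h2) h3 (hs _ _ hz.2) nbd nbe nde).elim
        · exact absurd rfl hzd
        · exact absurd hz.2 (hirr _)
    · push Not at hda
      obtain ⟨z, hz, hzb⟩ := exists_mem_ne hda b
      rw [mem_filter] at hz
      rcases hNm z hz.1 with rfl | rfl | rfl | rfl | rfl
      · exact absurd hz.2 (hirr _)
      · exact absurd rfl hzb
      · exact (three z b d a hc hb hd ha (hs _ _ h2) h3 (hs _ _ hz.2) nbd (Ne.symm nab)
          (Ne.symm nad)).elim
      · exact (three z c e a hd hc he ha (hs _ _ h3) h4 (hs _ _ hz.2) nce (Ne.symm nac)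
          (Ne.symm nae)).elim
      · exact hLA _ he a ha (hs _ _ hz.2)
  refine ⟨![a, b, c, d, e], inj5 nab nac nad nae nbc nbd nbe ncd nce nde, ?_, ?_⟩
  · intro i
    fin_cases i
    · exact ha
    · exact hb
    · exact hc
    · exact hd
    · exact he
  · intro i
    fin_cases i
    · exact hLA a ha b hb h1
    · exact hLA b hb c hc h2
    · exact hLA c hc d hd h3
    · exact hLA d hd e he h4
    · exact hlast

end Pool.Agent.Helper96.ML
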